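import Mathlib

set_option autoImplicit false

namespace Pool.Agent.MP_650f93_lc.H98

universe u

/-- `IsIter π α F`: the filter `F` is an `α`-th iterate of the Frechet filter, built with the
pairing `π` and some choice of increasing sequences converging to the limit ordinals. -/
inductive IsIter (π : ℕ × ℕ ≃ ℕ) : Ordinal.{0} → Filter ℕ → Prop
  | one : IsIter π 1 Filter.cofinite
  | succ (β : Ordinal.{0}) (G F : Filter ℕ) : IsIter π β G →
      (∀ A : Set ℕ, A ∈ F ↔ {m | {n | π (m, n) ∈ A} ∈ G} ∈ Filter.cofinite) →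
      IsIter π (β + 1) F
  | lim (l : Ordinal.{0}) (s : ℕ → Ordinal.{0}) (G : ℕ → Filter ℕ) (F : Filter ℕ) :
      Order.IsSuccLimit l → StrictMono s → (⨆ k, s k) = l → (∀ k, IsIter π (s k) (G k)) →
      (∀ A : Set ℕ, A ∈ F ↔ {m | {n | π (m, n) ∈ A} ∈ G m} ∈ Filter.cofinite) →
      IsIter π l F

/-- a countable Borel equivalence relation -/
def IsCBER {X : Type u} [MeasurableSpace X] (E : Setoid X) : Prop :=
  MeasurableSet {p : X × X | E p.1 p.2} ∧ ∀ x, {y | E x y}.Countable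

/-- `E` is `F`-amenable -/
def Amenable {X : Type u} [MeasurableSpace X] (F : Filter ℕ) (E : Setoid X) : Prop :=
  ∃ f : ℕ → {p : X × X // E p.1 p.2} → ℝ,
    (∀ n, Measurable (f n)) ∧ (∀ n p, 0 ≤ f n p) ∧
    (∀ n x, HasSum (fun y : {y // E x y} => f n ⟨(x, y.1), y.2⟩) 1) ∧
    ∀ x y (h : E x y), Filter.Tendsto
      (fun n => ∑' z : {z // E x z},
        |f n ⟨(x, z.1), z.2⟩ - f n ⟨(y, z.1), E.trans (E.symm h) z.2⟩|) F (nhds 0)

end Pool.Agent.MP_650f93_lc.H98
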