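import Pool.Agent.MP_650f93_lc.Main
import Pool.Agent.MP_650f93_lc.H98.Defs

set_option autoImplicit false

open Set Filter Topology

namespace Pool.Agent.MP_650f93_lc.H98

universe u v

/-- amenability with functions on the square that vanish off the relation -/
def Am {X : Type u} [MeasurableSpace X] (F : Filter ℕ) (E : X → X → Prop) : Prop :=
  ∃ f : ℕ → X × X → ℝ, (∀ n, Measurable (f n)) ∧ (∀ n p, 0 ≤ f n p) ∧
    (∀ n x z, ¬ E x z → f n (x, z) = 0) ∧ (∀ n x, HasSum (fun z => f n (x, z)) 1) ∧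
    ∀ x y, E x y → Tendsto (fun n => ∑' z, |f n (x, z) - f n (y, z)|) F (𝓝 0)

theorem tsum_eq {X : Type u} (E : Setoid X) (f : X × X → ℝ)
    (hf : ∀ x z, ¬ E x z → f (x, z) = 0) (x y : X) (h : E x y) :
    ∑' z : {z // E x z}, |f (x, z.1) - f (y, z.1)| = ∑' z, |f (x, z) - f (y, z)| := by
  refine tsum_subtype_eq_of_support_subset (s := {z | E x z})
    (f := fun z => |f (x, z) - f (y, z)|) fun z hz => ?_
  by_contra hxz
  have hyz : ¬ E y z := fun h' => hxz (E.trans h h')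
  exact hz (by simp [hf x z hxz, hf y z hyz])

theorem Am.amenable {X : Type u} [MeasurableSpace X] {F : Filter ℕ} {E : Setoid X}
    (h : Am F E) : Amenable F E := by
  obtain ⟨f, h1, h2, h3, h4, h5⟩ := h
  refine ⟨fun n p => f n p.1, fun n => (h1 n).comp measurable_subtype_coe, fun n p => h2 n _,
    fun n x => ?_, fun x y hxy => ?_⟩
  · refine (hasSum_subtype_iff_of_support_subset (s := {y | E x y})
      (f := fun y => f n (x, y)) fun y hy => ?_).2 (h4 n x)
    by_contra hxy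
    exact hy (h3 n x y hxy)
  · exact (h5 x y hxy).congr fun n => (tsum_eq E (f n) (h3 n) x y hxy).symm

theorem Amenable.am {X : Type u} [MeasurableSpace X] {F : Filter ℕ} {E : Setoid X}
    (hE : MeasurableSet {p : X × X | E p.1 p.2}) (h : Amenable F E) : Am F E := by
  classical
  obtain ⟨f, h1, h2, h4, h5⟩ := h
  let g : ℕ → X × X → ℝ := fun n p => if h : E p.1 p.2 then f n ⟨p, h⟩ else 0
  have hg : ∀ n x z (h : E x z), g n (x, z) = f n ⟨(x, z), h⟩ := fun n x z h => dif_pos h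
  have hg0 : ∀ n x z, ¬ E x z → g n (x, z) = 0 := fun n x z h => dif_neg h
  refine ⟨g, fun n => ?_, fun n p => ?_, hg0, fun n x => ?_, fun x y hxy => ?_⟩
  · exact Measurable.dite (s := {p : X × X | E p.1 p.2}) (f := f n) (g := fun _ => 0) (h1 n)
      measurable_const hE
  · simp only [g]
    split_ifs
    · exact h2 n _
    · exact le_rfl
  · refine (hasSum_subtype_iff_of_support_subset (s := {y | E x y})
      (f := fun y => g n (x, y)) fun y hy => ?_).1 ?_
    · by_contra hxy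
      exact hy (hg0 n x y hxy)
    · have e : (fun y : {y // E x y} => g n (x, y.1)) = fun y => f n ⟨(x, y.1), y.2⟩ :=
        funext fun y => hg n x y.1 y.2
      have h6 := h4 n x
      rw [← e] at h6
      exact h6
  · refine (h5 x y hxy).congr fun n => ?_
    rw [← tsum_eq E (g n) (hg0 n) x y hxy]
    refine tsum_congr fun z => ?_
    rw [hg n x z.1 z.2, hg n y z.1 (E.trans (E.symm hxy) z.2)]

theorem Am.transport {X : Type u} {Y : Type v} [MeasurableSpace X] [MeasurableSpace Y]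
    (e : X ≃ᵐ Y) {F : Filter ℕ} {E : X → X → Prop} {E' : Y → Y → Prop}
    (hE : ∀ x y, E x y ↔ E' (e x) (e y)) (h : Am F E') : Am F E := by
  obtain ⟨f, h1, h2, h3, h4, h5⟩ := h
  refine ⟨fun n p => f n (e p.1, e p.2), fun n => ?_, fun n p => h2 n _,
    fun n x z hz => h3 n _ _ fun h' => hz ((hE x z).2 h'), fun n x => ?_, fun x y hxy => ?_⟩
  · exact (h1 n).comp ((e.measurable.comp measurable_fst).prodMk
      (e.measurable.comp measurable_snd))
  · exact (e.toEquiv.hasSum_iff (f := fun z => f n (e x, z))).2 (h4 n (e x))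
  · refine (h5 _ _ ((hE x y).1 hxy)).congr fun n => ?_
    exact (e.toEquiv.tsum_eq fun z => |f n (e x, z) - f n (e y, z)|).symm

theorem reduce' {X : Type} [MeasurableSpace X] [StandardBorelSpace X] {F : X → X → Prop}
    (hF : Equivalence F) {γ : ℕ → X → X}
    (hγ : ∀ j, Measurable (γ j)) (hγ' : ∀ x y, F x y ↔ ∃ j, γ j x = y)
    {π : ℕ × ℕ ≃ ℕ} {α : Ordinal.{0}} {Φ : Filter ℕ} (hΦ : IsIter π α Φ) :
    ∀ f : ℕ → X × X → ℝ,
      (∀ n, Asg F (f n)) → ∃ h : ℕ → X × X → ℝ, (∀ k, Asg F (h k)) ∧ ∀ x y, F x y → ∀ t : ℝ,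
        (∀ᶠ n in Φ, dd (f n) x y ≤ t) →
        ∀ ε : ℝ, 0 < ε → ∀ᶠ k in atTop, dd (h k) x y ≤ t + ε := by
  induction hΦ with
  | one =>
    intro f hf
    refine ⟨f, hf, fun x y _ t ht ε hε => ?_⟩
    rw [Nat.cofinite_eq_atTop] at ht
    exact ht.mono fun k hk => by linarith
  | succ β G Φ _ hA ih =>
    intro f hf
    choose g hg hg' using fun m => ih (fun n => f (π (m, n))) fun n => hf _
    obtain ⟨h, hh, hh'⟩ := diagonal hF hγ hγ' hg
    refine ⟨h, hh, fun x y hxy t ht => hh' x y hxy t ?_⟩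
    have := (hA _).1 ht
    rw [Nat.cofinite_eq_atTop] at this
    filter_upwards [this] with m hm
    exact hg' m x y hxy t hm
  | lim l s G Φ _ _ _ _ hA ih =>
    intro f hf
    choose g hg hg' using fun m => ih m (fun n => f (π (m, n))) fun n => hf _
    obtain ⟨h, hh, hh'⟩ := diagonal hF hγ hγ' hg
    refine ⟨h, hh, fun x y hxy t ht => hh' x y hxy t ?_⟩
    have := (hA _).1 ht
    rw [Nat.cofinite_eq_atTop] at this
    filter_upwards [this] with m hm
    exact hg' m x y hxy t hm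

theorem IsIter.exists_tendsto {π : ℕ × ℕ ≃ ℕ} {α : Ordinal.{0}} {Φ : Filter ℕ}
    (hΦ : IsIter π α Φ) : ∃ φ : ℕ → ℕ, Tendsto φ Φ atTop := by
  have key : ∀ (G : ℕ → Filter ℕ) (Ψ : Filter ℕ),
      (∀ A : Set ℕ, A ∈ Ψ ↔ {m | {n | π (m, n) ∈ A} ∈ G m} ∈ Filter.cofinite) →
      ∃ φ : ℕ → ℕ, Tendsto φ Ψ atTop := by
    intro G Ψ hA
    refine ⟨fun n => (π.symm n).1, fun S hS => (hA _).2 ?_⟩
    rw [Nat.cofinite_eq_atTop]
    filter_upwards [hS] with m hm
    have : {n : ℕ | π (m, n) ∈ (fun n : ℕ => (π.symm n).1) ⁻¹' S} = univ := by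
      ext n; simpa using hm
    rw [this]
    exact univ_mem
  cases hΦ with
  | one => exact ⟨id, by rw [Nat.cofinite_eq_atTop]; exact tendsto_id⟩
  | succ β G _ _ hA => exact key (fun _ => G) _ hA
  | lim _ s G _ _ _ _ _ hA => exact key G _ hA

theorem Am.of_atTop {X : Type u} [MeasurableSpace X] {E : X → X → Prop} (h : Am atTop E)
    {π : ℕ × ℕ ≃ ℕ} {α : Ordinal.{0}} {Φ : Filter ℕ} (hΦ : IsIter π α Φ) : Am Φ E := by
  obtain ⟨φ, hφ⟩ := hΦ.exists_tendsto
  obtain ⟨f, h1, h2, h3, h4, h5⟩ := h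
  exact ⟨fun n => f (φ n), fun n => h1 _, fun n => h2 _, fun n => h3 _, fun n => h4 _,
    fun x y hxy => (h5 x y hxy).comp hφ⟩

theorem union0 {X : Type} [MeasurableSpace X] [StandardBorelSpace X] (E : ℕ → X → X → Prop)
    (hEm : ∀ i, MeasurableSet {p : X × X | E i p.1 p.2})
    (hEc : ∀ i x, Set.Countable {y : X | E i x y})
    (hmono : ∀ i j x y, i ≤ j → E i x y → E j x y)
    (hF : Equivalence fun x y => ∃ i, E i x y) {π : ℕ × ℕ ≃ ℕ}
    (hf : ∀ i, ∃ α Φ, IsIter π α Φ ∧ Am Φ (E i)) : Am atTop fun x y => ∃ i, E i x y := by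
  classical
  let F : X → X → Prop := fun x y => ∃ i, E i x y
  obtain ⟨γ, hγ, hγ'⟩ := Pool.Agent.Lib.LusinNovikov.exists_enum (F := F) (by
      have : {p : X × X | F p.1 p.2} = ⋃ i, {p : X × X | E i p.1 p.2} := by
        ext p; simp [F]
      rw [this]; exact MeasurableSet.iUnion hEm) (fun x => by
      have : {y | F x y} = ⋃ i, {y | E i x y} := by
        ext p; simp [F]
      rw [this]; exact countable_iUnion fun i => hEc i x) hF.refl
  choose α Φ hΦ f hf1 hf2 hf3 hf4 hf5 using hf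
  have hf' : ∀ i n, Asg F (f i n) := fun i n =>
    ⟨hf1 i n, hf2 i n, fun x z h => hf3 i n x z fun h' => h ⟨i, h'⟩, hf4 i n⟩
  choose g hg hg' using fun i => reduce' hF hγ hγ' (hΦ i) (f i) (hf' i)
  obtain ⟨h, hh, hh'⟩ := diagonal hF hγ hγ' hg
  refine ⟨h, fun n => (hh n).meas, fun n => (hh n).nonneg, fun n => (hh n).supp,
    fun n => (hh n).sum, ?_⟩
  rintro x y ⟨i, hi⟩
  change Tendsto (fun k => dd (h k) x y) atTop (𝓝 0)
  rw [Metric.tendsto_nhds]
  intro ε hε
  have := hh' x y ⟨i, hi⟩ (ε / 3) (by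
    filter_upwards [eventually_ge_atTop i] with m hm
    refine hg' m x y ⟨i, hi⟩ (ε / 3) ?_
    exact (hf5 m x y (hmono _ _ _ _ hm hi)).eventually
      (ge_mem_nhds (show 0 < ε / 3 by positivity))) (ε / 3) (by positivity)
  filter_upwards [this] with k hk
  rw [Real.dist_eq, sub_zero, abs_of_nonneg (dd_nonneg _ _ _)]
  linarith

theorem union (π : ℕ × ℕ ≃ ℕ) (X : Type u) [MeasurableSpace X] [StandardBorelSpace X]
    (E : ℕ → Setoid X) (hE : ∀ i, IsCBER (E i)) (hs : ∀ i x y, E i x y → E (i + 1) x y)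
    (ha : ∀ i, ∃ (α : Ordinal.{0}) (F : Filter ℕ), IsIter π α F ∧ Amenable F (E i)) :
    ∃ U : Setoid X, (∀ x y, U x y ↔ ∃ i, E i x y) ∧ IsCBER U ∧
      ∀ (β : Ordinal.{0}) (G : Filter ℕ), IsIter π β G → Amenable G U := by
  have hmono : ∀ i j x y, i ≤ j → E i x y → E j x y := by
    intro i j x y hij h
    induction j, hij using Nat.le_induction with
    | base => exact h
    | succ j _ ih => exact hs j x y ih
  have hF : Equivalence fun x y => ∃ i, E i x y :=
    ⟨fun x => ⟨0, (E 0).refl x⟩, fun ⟨i, h⟩ => ⟨i, (E i).symm h⟩,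
      fun ⟨i, h⟩ ⟨j, h'⟩ => ⟨max i j, (E _).trans (hmono _ _ _ _ (le_max_left _ _) h)
        (hmono _ _ _ _ (le_max_right _ _) h')⟩⟩
  refine ⟨⟨_, hF⟩, fun _ _ => Iff.rfl, ⟨?_, fun x => ?_⟩, fun β G hG => ?_⟩
  · have : {p : X × X | ∃ i, E i p.1 p.2} = ⋃ i, {p : X × X | E i p.1 p.2} := by
      ext p; simp
    exact this ▸ MeasurableSet.iUnion fun i => (hE i).1
  · have : {y | ∃ i, E i x y} = ⋃ i, {y | E i x y} := by
      ext p; simp
    exact this ▸ countable_iUnion fun i => (hE i).2 x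
  obtain ⟨s, hs', ⟨e⟩⟩ := MeasureTheory.exists_subset_real_measurableEquiv X
  have := hs'.standardBorel
  refine Am.amenable (Am.of_atTop ?_ hG)
  refine Am.transport e (E' := fun a b => ∃ i, E i (e.symm a) (e.symm b)) (by
    intro x y
    simp only [MeasurableEquiv.symm_apply_apply]) ?_
  refine union0 (π := π) (fun i a b => E i (e.symm a) (e.symm b)) (fun i => ?_) (fun i a => ?_)
    (fun i j a b => hmono i j _ _) ⟨fun a => hF.refl _, fun h => hF.symm h,
      fun h h' => hF.trans h h'⟩ fun i => ?_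
  · exact ((e.symm.measurable.comp measurable_fst).prodMk
      (e.symm.measurable.comp measurable_snd)) (hE i).1
  · exact ((hE i).2 (e.symm a)).preimage_of_injOn (f := e.symm) e.symm.injective.injOn
  · obtain ⟨α, Φ, hΦ, h⟩ := ha i
    exact ⟨α, Φ, hΦ, Am.transport e.symm (fun _ _ => Iff.rfl) (h.am (hE i).1)⟩

end Pool.Agent.MP_650f93_lc.H98
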